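import Pool.Agent.Helper72.EP.Spec2

/-! # Path calculus -/

namespace ErdPos

open Finset SimpleGraph

section
variable {V : Type} [DecidableEq V] {G : SimpleGraph V}

/-- the two halves of a path -/
lemma pa_app {a b c : V} {p : G.Walk a b} {q : G.Walk b c} (h : (p.append q).IsPath) :
    p.support.toFinset ∩ q.support.toFinset = {b} ∧
    p.support.toFinset ∪ q.support.toFinset = (p.append q).support.toFinset ∧
    Disjoint p.edges.toFinset q.edges.toFinset ∧
    p.edges.toFinset ∪ q.edges.toFinset = (p.append q).edges.toFinset := by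
  refine ⟨?_, ?_, ?_, ?_⟩
  · ext x
    simp only [mem_inter, List.mem_toFinset, mem_singleton]
    constructor
    · rintro ⟨h1, h2⟩
      by_contra hne
      exact h.ne_of_mem_support_of_append hne h1 h2 rfl
    · rintro rfl
      exact ⟨p.end_mem_support, q.start_mem_support⟩
  · ext x
    simp only [mem_union, List.mem_toFinset, Walk.mem_support_append_iff]
  · rw [Finset.disjoint_left]
    intro e he hf
    rw [List.mem_toFinset] at he hf
    have h1 := h.isTrail.edges_nodup
    rw [Walk.edges_append] at h1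
    exact List.disjoint_of_nodup_append h1 he hf
  · ext x
    simp only [mem_union, List.mem_toFinset, Walk.edges_append, List.mem_append]

/-- concatenation of paths -/
lemma pa_cat {a b c : V} {p : G.Walk a b} {q : G.Walk b c} (hp : p.IsPath) (hq : q.IsPath)
    (h : p.support.toFinset ∩ q.support.toFinset ⊆ {b}) : (p.append q).IsPath := by
  refine Walk.IsPath.mk' ?_
  rw [Walk.support_append, List.nodup_append']
  refine ⟨hp.support_nodup, hq.support_nodup.tail, ?_⟩
  intro x hx hy
  have h1 : x ∈ q.support := List.mem_of_mem_tail hy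
  have h2 : x = b := by
    have := h (mem_inter.2 ⟨List.mem_toFinset.2 hx, List.mem_toFinset.2 h1⟩)
    simpa using this
  subst h2
  have h3 := hq.support_nodup
  rw [← Walk.cons_tail_support] at h3
  exact (List.nodup_cons.1 h3).1 hy

lemma pa_conn {a b : V} (p : G.Walk a b) : Conn G p.support.toFinset := by
  induction p with
  | nil => simpa using conn_singleton (G := G) _
  | @cons u v w h p ih =>
    rw [Walk.support_cons, List.toFinset_cons]
    exact ih.insert (List.mem_toFinset.2 p.start_mem_support) h.symm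

lemma pa_first {a b : V} (p : G.Walk a b) (Q : Finset V) (h : (p.support.toFinset ∩ Q).Nonempty) :
    ∃ x ∈ Q, ∃ (q : G.Walk a x) (r : G.Walk x b), p = q.append r ∧
      q.support.toFinset ∩ Q = {x} := by
  induction p with
  | nil =>
    rename_i u
    have hu : u ∈ Q := by
      obtain ⟨x, hx⟩ := h
      simp at hx
      rw [← hx.1]
      exact hx.2
    refine ⟨u, hu, Walk.nil, Walk.nil, rfl, ?_⟩
    ext y
    simp only [Walk.support_nil, List.toFinset_cons, List.toFinset_nil, mem_inter,
      mem_insert, notMem_empty, or_false, mem_singleton]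
    constructor
    · exact fun h => h.1
    · rintro rfl
      exact ⟨rfl, hu⟩
  | @cons u v w hA p ih =>
    by_cases hu : u ∈ Q
    · refine ⟨u, hu, Walk.nil, Walk.cons hA p, rfl, ?_⟩
      ext y
      simp only [Walk.support_nil, List.toFinset_cons, List.toFinset_nil, mem_inter,
        mem_insert, notMem_empty, or_false, mem_singleton]
      constructor
      · exact fun h => h.1
      · rintro rfl
        exact ⟨rfl, hu⟩
    · have h2 : (p.support.toFinset ∩ Q).Nonempty := by
        obtain ⟨x, hx⟩ := h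
        rw [mem_inter, Walk.support_cons, List.toFinset_cons, mem_insert] at hx
        rcases hx with ⟨rfl | h1, h3⟩
        · exact absurd h3 hu
        · exact ⟨x, mem_inter.2 ⟨h1, h3⟩⟩
      obtain ⟨x, hx, q, r, h3, h4⟩ := ih h2
      refine ⟨x, hx, Walk.cons hA q, r, by rw [h3]; rfl, ?_⟩
      rw [Walk.support_cons, List.toFinset_cons, insert_inter_of_notMem hu, h4]

lemma pa_reach {L : Finset V} {a b : V} (hL : Conn G L) (ha : a ∈ L) (hb : b ∈ L) :
    ∃ p : G.Walk a b, ∀ x ∈ p.support, x ∈ L := by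
  classical
  by_contra hcon
  let B := L.filter (fun x => ∃ p : G.Walk a x, ∀ y ∈ p.support, y ∈ L)
  have haB : a ∈ B := by
    refine mem_filter.2 ⟨ha, Walk.nil, ?_⟩
    intro y hy
    rw [Walk.support_nil, List.mem_singleton] at hy
    rw [hy]
    exact ha
  have hBne : B ≠ L := by
    intro h
    have h1 : b ∈ B := h ▸ hb
    exact hcon (mem_filter.1 h1).2
  obtain ⟨x, hx, y, hy, hxy⟩ := hL.2 B (filter_subset _ _) ⟨a, haB⟩ hBne
  obtain ⟨hxL, p, hp⟩ := mem_filter.1 hx
  obtain ⟨hyL, hyB⟩ := mem_sdiff.1 hy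
  apply hyB
  refine mem_filter.2 ⟨hyL, p.concat hxy, ?_⟩
  intro z hz
  rw [Walk.support_concat, List.mem_append, List.mem_singleton] at hz
  rcases hz with hz | rfl
  · exact hp z hz
  · exact hyL

omit [DecidableEq V] in
lemma pa_step {a b : V} (p : G.Walk a b) (hp : p.IsPath) (hab : a ≠ b) :
    ∃ x, ∃ (h : G.Adj a x) (q : G.Walk x b), p = Walk.cons h q ∧ q.IsPath ∧ a ∉ q.support := by
  cases p with
  | nil => exact absurd rfl hab
  | cons h q =>
    rw [Walk.cons_isPath_iff] at hp
    exact ⟨_, h, q, rfl, hp.1, hp.2⟩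

lemma pa_tmem {a b : V} {S : Finset V} {T : Finset (Sym2 V)} (hP : Pth G a b S T) :
    ∀ e ∈ T, ∃ x ∈ S, ∃ y ∈ S, G.Adj x y ∧ e = s(x, y) := by
  obtain ⟨p, -, rfl, rfl⟩ := hP
  intro e he
  rw [List.mem_toFinset] at he
  induction e using Sym2.ind with
  | _ x y =>
    exact ⟨x, List.mem_toFinset.2 (p.fst_mem_support_of_mem_edges he), y,
      List.mem_toFinset.2 (p.snd_mem_support_of_mem_edges he), p.adj_of_mem_edges he, rfl⟩

lemma pa_card {a b : V} {S : Finset V} {T : Finset (Sym2 V)} (hP : Pth G a b S T) :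
    T.card + 1 = S.card := by
  obtain ⟨p, hp, rfl, rfl⟩ := hP
  rw [List.toFinset_card_of_nodup hp.support_nodup,
    List.toFinset_card_of_nodup hp.isTrail.edges_nodup, Walk.length_support, Walk.length_edges]

lemma pa_single {a b : V} {S : Finset V} {T : Finset (Sym2 V)} (hP : Pth G a b S T)
    (hab : a ≠ b) (h : s(a, b) ∈ T ∨ S.card ≤ 2) : S = {a, b} ∧ T = {s(a, b)} := by
  obtain ⟨p, hp, rfl, rfl⟩ := hP
  obtain ⟨x, hA, q, rfl, hq, haq⟩ := pa_step p hp hab
  have hxb : x = b := by
    rcases h with h | h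
    · rw [List.mem_toFinset, Walk.edges_cons, List.mem_cons] at h
      rcases h with h | h
      · rw [Sym2.eq_iff] at h
        rcases h with h | h
        · exact h.2.symm
        · exact absurd h.2.symm hab
      · exact absurd (q.fst_mem_support_of_mem_edges h) haq
    · by_contra hne
      have h1 : ({a, x, b} : Finset V) ⊆ (Walk.cons hA q).support.toFinset := by
        intro z hz
        rw [Walk.support_cons, List.toFinset_cons, mem_insert]
        simp only [mem_insert, mem_singleton] at hz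
        rcases hz with rfl | rfl | rfl
        · exact Or.inl rfl
        · exact Or.inr (List.mem_toFinset.2 q.start_mem_support)
        · exact Or.inr (List.mem_toFinset.2 q.end_mem_support)
      have h2 : ({a, x, b} : Finset V).card = 3 := by
        rw [card_insert_of_notMem, card_pair hne]
        simp only [mem_insert, mem_singleton, not_or]
        exact ⟨hA.ne, hab⟩
      have h3 := card_le_card h1
      omega
  subst hxb
  have hnil : q = Walk.nil := (Walk.isPath_iff_nil.1 hq).eq_nil
  subst hnil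
  constructor
  · ext z
    simp
  · ext z
    simp

theorem st_PA : ST_PA := by
  intro V _ G
  refine ⟨?_, ?_, ?_, fun _ _ _ _ h => pa_tmem h, ?_, ?_, fun _ _ _ _ h => pa_card h, ?_, ?_, ?_,
    ?_, ?_, fun _ _ _ _ h h1 h2 => pa_single h h1 h2, ?_⟩
  · intro a
    exact ⟨Walk.nil, Walk.IsPath.nil, by simp, by simp⟩
  · intro a b h
    refine ⟨Walk.cons h Walk.nil, ?_, by simp, by simp⟩
    rw [Walk.cons_isPath_iff]
    exact ⟨Walk.IsPath.nil, by simpa using h.ne⟩
  · rintro a b S T ⟨p, -, rfl, rfl⟩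
    exact ⟨List.mem_toFinset.2 p.start_mem_support, List.mem_toFinset.2 p.end_mem_support⟩
  · rintro a S T ⟨p, hp, rfl, rfl⟩
    have hnil : p = Walk.nil := (Walk.isPath_iff_nil.1 hp).eq_nil
    subst hnil
    simp
  · rintro a b S T ⟨p, -, rfl, rfl⟩
    exact pa_conn p
  · intro L a b hL ha hb
    obtain ⟨p, hp⟩ := pa_reach hL ha hb
    refine ⟨p.bypass.support.toFinset, p.bypass.edges.toFinset, ?_, p.bypass,
      p.bypass_isPath, rfl, rfl⟩
    intro x hx
    exact hp x (p.support_bypass_subset_support (List.mem_toFinset.1 hx))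
  · rintro a b c S T S' T' ⟨p, hp, rfl, rfl⟩ ⟨q, hq, rfl, rfl⟩ h
    have h1 := pa_cat hp hq h
    obtain ⟨-, h2, h3, h4⟩ := pa_app h1
    exact ⟨⟨p.append q, h1, h2.symm, h4.symm⟩, h3⟩
  · rintro a b x S T ⟨p, hp, rfl, rfl⟩ hx
    rw [List.mem_toFinset] at hx
    obtain ⟨q, r, hq, hr, rfl⟩ := hp.mem_support_iff_exists_append.1 hx
    obtain ⟨h1, h2, h3, h4⟩ := pa_app hp
    exact ⟨_, _, _, _, ⟨q, hq, rfl, rfl⟩, ⟨r, hr, rfl, rfl⟩, h1, h2, h3, h4⟩
  · rintro a b S T ⟨p, hp, rfl, rfl⟩ hab
    obtain ⟨x, hA, q, rfl, hq, haq⟩ := pa_step p hp hab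
    refine ⟨x, _, _, hA, ⟨q, hq, rfl, rfl⟩, ?_, ?_, ?_, ?_⟩
    · rwa [List.mem_toFinset]
    · rw [Walk.support_cons, List.toFinset_cons]
    · rw [Walk.edges_cons, List.toFinset_cons]
    · rw [List.mem_toFinset]
      exact fun h => haq (q.fst_mem_support_of_mem_edges h)
  · rintro a b S T Q ⟨p, hp, rfl, rfl⟩ h
    obtain ⟨x, hx, q, r, rfl, h5⟩ := pa_first p Q h
    obtain ⟨h1, h2, h3, h4⟩ := pa_app hp
    exact ⟨x, hx, _, _, _, _, ⟨q, hp.of_append_left, rfl, rfl⟩, ⟨r, hp.of_append_right, rfl, rfl⟩,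
      h5, h1, h2, h3, h4⟩
  · rintro G' a b S T ⟨p, hp, rfl, rfl⟩ h
    have h' : ∀ e ∈ p.edges, e ∈ G'.edgeSet := fun e he => h e (List.mem_toFinset.2 he)
    refine ⟨p.transfer G' h', hp.transfer h', ?_, ?_⟩
    · rw [Walk.support_transfer]
    · rw [Walk.edges_transfer]

end

end ErdPos
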