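import Pool.Agent.Helper72.EP.Spec2

/-! # Good cycles have 0/1 values -/

namespace ErdPos

open Finset

section
variable {V : Type} [Fintype V] [DecidableEq V] {G : SimpleGraph V} {F : Finset V → Prop}
  {C : Finset V}

lemma zo_path (hPEEL : ST_PEEL) (hPA : ST_PA) (hctx : Ctx G F C) (φ : Sym2 V → ℤ)
    (h01 : ∀ A u v S T, HP G F C A u v S T → ∑ e ∈ T, φ e = 0 ∨ ∑ e ∈ T, φ e = 1)
    (hd : ∀ A u v S T A' u' v' S' T', HP G F C A u v S T → HP G F C A' u' v' S' T' →
      ∑ e ∈ T, φ e = 1 → ∑ e ∈ T', φ e = 1 → A = A') :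
    ∀ (n : ℕ) (s t : V) (S : Finset V) (T : Finset (Sym2 V)), S.card ≤ n → Pth G s t S T →
      S ⊆ C → TVx G F C s → TVx G F C t →
      ∑ e ∈ T, φ e = 0 ∨ (∑ e ∈ T, φ e = 1 ∧ ∃ A u v S' T', HP G F C A u v S' T' ∧
        ∑ e ∈ T', φ e = 1 ∧ Zt G C A ⊆ S) := by
  have hP := hPA V G
  intro n
  induction n with
  | zero =>
    intro s t S T hc hp _ _ _
    have h1 := (hP.ends s t S T hp).1
    rw [Nat.le_zero, card_eq_zero] at hc
    rw [hc] at h1
    simp at h1
  | succ n ih =>
    intro s t S T hc hp hSC hs ht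
    by_cases hst : s = t
    · subst hst
      obtain ⟨-, h2⟩ := hP.triv s S T hp
      left
      rw [h2, sum_empty]
    · obtain ⟨A, s', S1, T1, S2, T2, h1, h2, h3, h4, h5, h6, h7, h8, h9⟩ :=
        hPEEL V G F C hctx s t S T hp hSC hst hs ht
      have hcard : S2.card ≤ n := by
        have hsS : s ∈ S := (hP.ends s t S T hp).1
        have h10 : S2 ⊆ S.erase s := by
          intro x hx
          refine mem_erase.2 ⟨?_, h5 ▸ mem_union_right _ hx⟩
          rintro rfl
          exact h9 hx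
        have h11 := card_le_card h10
        rw [card_erase_of_mem hsS] at h11
        omega
      have hS2C : S2 ⊆ C := fun x hx => hSC (h5 ▸ mem_union_right _ hx)
      have hsum : ∑ e ∈ T, φ e = ∑ e ∈ T1, φ e + ∑ e ∈ T2, φ e := by
        rw [← h7, sum_union h6]
      have hS2S : S2 ⊆ S := fun x hx => h5 ▸ mem_union_right _ hx
      have hS1S : S1 ⊆ S := fun x hx => h5 ▸ mem_union_left _ hx
      have hZ : Zt G C A ⊆ S := by
        rw [h1.2.1]
        intro x hx
        rw [mem_insert, mem_singleton] at hx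
        have h10 := hP.ends s s' S1 T1 h1.2.2.2.1
        rcases hx with rfl | rfl
        · exact hS1S h10.1
        · exact hS1S h10.2
      rcases ih s' t S2 T2 hcard h2 hS2C h8 ht with h0 | ⟨h0, A2, u2, v2, S', T', h12, h13, h14⟩
      · rcases h01 A s s' S1 T1 h1 with h10 | h10
        · left
          rw [hsum, h10, h0, add_zero]
        · right
          refine ⟨by rw [hsum, h10, h0, add_zero], A, s, s', S1, T1, h1, h10, hZ⟩
      · rcases h01 A s s' S1 T1 h1 with h10 | h10
        · right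
          exact ⟨by rw [hsum, h10, h0, zero_add], A2, u2, v2, S', T', h12, h13,
            h14.trans hS2S⟩
        · exfalso
          have hA := hd A s s' S1 T1 A2 u2 v2 S' T' h1 h12 h10 h13
          apply h9
          apply h14
          rw [← hA, h1.2.1]
          exact mem_insert_self _ _

end

theorem st_ZO (hPA : ST_PA) (hCA : ST_CA) (hHUL : ST_HUL) (hPEEL : ST_PEEL)
    (hCPEEL : ST_CPEEL) : ST_ZO := by
  intro V _ _ G F C hctx φ h01 hd S T hGC
  obtain ⟨hcyc, hSC, hrob, hnot⟩ := hGC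
  have hP := hPA V G
  have hC := hCA V G
  have hT : T.Nonempty := by
    rw [← card_pos, (hC.card S T hcyc).2]
    have := (hC.card S T hcyc).1
    omega
  obtain ⟨e, he⟩ := hT
  obtain ⟨a, ha, b, hb, hab, rfl⟩ := hC.tmem S T hcyc e he
  obtain ⟨hHul, -, -⟩ := (hHUL V G F C hctx).1 a b (hrob a ha) (hrob b hb) hab
  obtain ⟨z, hzS, hzA⟩ := not_subset.1 (hnot _ hHul)
  obtain ⟨u, v, S1, T1, S2, T2, h1, -, h3, h4, h5, h6, h7, h8, h9⟩ :=
    hCPEEL V G F C hctx S T a b z hcyc hSC hrob he hzS hzA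
  generalize hAdef : cl G F C 5 {a, b} = A at *
  have hS2S : S2 ⊆ S := fun x hx => h7 ▸ mem_union_right _ hx
  have hS2C : S2 ⊆ C := hS2S.trans hSC
  have hZt := h1.2.1
  have hu : TVx G F C u := ⟨A, h1.1, by rw [hZt]; simp⟩
  have hv : TVx G F C v := ⟨A, h1.1, by rw [hZt]; simp⟩
  have huv : u ≠ v := h1.2.2.1
  have hsum : ∑ e ∈ T, φ e = ∑ e ∈ T1, φ e + ∑ e ∈ T2, φ e := by
    rw [← h9, sum_union h8]
  rcases h01 A u v S1 T1 h1 with h10 | h10
  · rcases zo_path hPEEL hPA hctx φ h01 hd _ u v S2 T2 le_rfl h3 hS2C hu hv with h0 | ⟨h0, -⟩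
    · left
      rw [hsum, h10, h0, add_zero]
    · right
      rw [hsum, h10, h0, zero_add]
  · right
    obtain ⟨A', s', S1', T1', S2', T2', g1, g2, g3, g4, g5, g6, g7, g8, g9⟩ :=
      hPEEL V G F C hctx u v S2 T2 h3 hS2C huv hu hv
    have hS1'S2 : S1' ⊆ S2 := fun x hx => g5 ▸ mem_union_left _ hx
    have hS2'S2 : S2' ⊆ S2 := fun x hx => g5 ▸ mem_union_right _ hx
    have hAA' : A ≠ A' := by
      rintro rfl
      have k1 : s' ∈ ({u, v} : Finset V) := by
        rw [← hZt, g1.2.1]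
        simp
      rw [mem_insert, mem_singleton] at k1
      rcases k1 with rfl | rfl
      · exact g1.2.2.1 rfl
      · obtain ⟨k2, -⟩ := hP.triv s' S2' T2' g2
        apply hzA
        rw [← g5, mem_union] at h5
        rcases h5 with h5 | h5
        · exact g1.2.2.2.2 h5
        · rw [k2, mem_singleton] at h5
          rw [h5]
          exact g1.2.2.2.2 (hP.ends u s' S1' T1' g1.2.2.2.1).2
    have hsum2 : ∑ e ∈ T2, φ e = ∑ e ∈ T1', φ e + ∑ e ∈ T2', φ e := by
      rw [← g7, sum_union g6]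
    have k3 : ∑ e ∈ T1', φ e = 0 := by
      rcases h01 A' u s' S1' T1' g1 with k | k
      · exact k
      · exact absurd (hd A u v S1 T1 A' u s' S1' T1' h1 g1 h10 k) hAA'
    have k4 : ∑ e ∈ T2', φ e = 0 := by
      rcases zo_path hPEEL hPA hctx φ h01 hd _ s' v S2' T2' le_rfl g2 (hS2'S2.trans hS2C) g8 hv
        with h0 | ⟨h0, A2, u2, v2, S', T', h12, h13, h14⟩
      · exact h0
      · exfalso
        have hA := hd A u v S1 T1 A2 u2 v2 S' T' h1 h12 h10 h13
        apply g9
        apply h14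
        rw [← hA, hZt]
        exact mem_insert_self _ _
    rw [hsum, h10, hsum2, k3, k4]
    norm_num

end ErdPos
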